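import Pool.Agent.V117.SubLat1
import Pool.Agent.V117.SubLat2
import Pool.Agent.V117.SubLat3

/-! The number of maximal ideals and of maximal filters of the lattice of subspaces of an
infinite-dimensional vector space. -/

namespace Pool.Agent.Results.MP_f0da7f_al.CountMaximal

open Cardinal Pool.Agent.V117.SubLat

universe u

section Defs

variable {F V : Type u} [Field F] [AddCommGroup V] [Module F V]

/-- A (proper) ideal of the lattice of subspaces. -/
structure IsSubspaceIdeal (I : Set (Submodule F V)) : Prop where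
  bot_mem : ⊥ ∈ I
  top_notMem : ⊤ ∉ I
  mem_of_le : ∀ U W : Submodule F V, U ∈ I → W ≤ U → W ∈ I
  sup_mem : ∀ U W : Submodule F V, U ∈ I → W ∈ I → U ⊔ W ∈ I

/-- A (proper) filter on the lattice of subspaces. -/
structure IsSubspaceFilter (I : Set (Submodule F V)) : Prop where
  top_mem : ⊤ ∈ I
  bot_notMem : ⊥ ∉ I
  mem_of_le : ∀ U W : Submodule F V, U ∈ I → U ≤ W → W ∈ I
  inf_mem : ∀ U W : Submodule F V, U ∈ I → W ∈ I → U ⊓ W ∈ I

end Defs

variable {F V : Type u} [Field F] [AddCommGroup V] [Module F V]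

theorem exists_maximal_ideal {I : Set (Submodule F V)} (hI : IsSubspaceIdeal I) :
    ∃ M, I ⊆ M ∧ Maximal IsSubspaceIdeal M := by
  refine zorn_subset_nonempty {J : Set (Submodule F V) | IsSubspaceIdeal J} ?_ I hI
  intro c hc hchain hne
  refine ⟨⋃₀ c, ⟨?_, ?_, ?_, ?_⟩, fun s hs => Set.subset_sUnion_of_mem hs⟩
  · obtain ⟨s, hs⟩ := hne
    exact ⟨s, hs, (hc hs).bot_mem⟩
  · rintro ⟨s, hs, h⟩
    exact (hc hs).top_notMem h
  · rintro U W ⟨s, hs, h⟩ hle
    exact ⟨s, hs, (hc hs).mem_of_le U W h hle⟩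
  · rintro U W ⟨s, hs, h⟩ ⟨t, ht, h'⟩
    rcases hchain.total hs ht with hst | hst
    · exact ⟨t, ht, (hc ht).sup_mem U W (hst h) h'⟩
    · exact ⟨s, hs, (hc hs).sup_mem U W h (hst h')⟩

theorem exists_maximal_filter {I : Set (Submodule F V)} (hI : IsSubspaceFilter I) :
    ∃ M, I ⊆ M ∧ Maximal IsSubspaceFilter M := by
  refine zorn_subset_nonempty {J : Set (Submodule F V) | IsSubspaceFilter J} ?_ I hI
  intro c hc hchain hne
  refine ⟨⋃₀ c, ⟨?_, ?_, ?_, ?_⟩, fun s hs => Set.subset_sUnion_of_mem hs⟩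
  · obtain ⟨s, hs⟩ := hne
    exact ⟨s, hs, (hc hs).top_mem⟩
  · rintro ⟨s, hs, h⟩
    exact (hc hs).bot_notMem h
  · rintro U W ⟨s, hs, h⟩ hle
    exact ⟨s, hs, (hc hs).mem_of_le U W h hle⟩
  · rintro U W ⟨s, hs, h⟩ ⟨t, ht, h'⟩
    rcases hchain.total hs ht with hst | hst
    · exact ⟨t, ht, (hc ht).inf_mem U W (hst h) h'⟩
    · exact ⟨s, hs, (hc hs).inf_mem U W h (hst h')⟩

/-- Number of subspaces. -/
theorem mk_submodule_le {B : Type u} [Infinite B] (b : Module.Basis B F V) :
    #(Submodule F V) ≤ #F ^ #B := by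
  classical
  have hV : #V ≤ #F ^ #B := by
    have h1 : #V = #(B →₀ F) := Cardinal.mk_congr b.repr.toEquiv
    rw [h1]
    have h2 : #(B →₀ F) ≤ #(B → F) := Cardinal.mk_le_of_injective (f := fun v : B →₀ F => ⇑v)
      DFunLike.coe_injective
    simpa using h2
  have hsurj : Function.Surjective (fun f : B → V => Submodule.span F (Set.range f)) := by
    intro U
    -- a basis of `U`, indexed by a type of cardinality at most `#B`
    let bU := Module.Basis.ofVectorSpace F U
    have hle : #(Module.Basis.ofVectorSpaceIndex F U) ≤ #B := by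
      rw [bU.mk_eq_rank'', b.mk_eq_rank'']
      exact Submodule.rank_le U
    obtain ⟨e⟩ := hle
    let f : B → V := Function.extend e (fun i => ((bU i : U) : V)) 0
    refine ⟨f, le_antisymm ?_ ?_⟩
    · rw [Submodule.span_le]
      rintro _ ⟨i, rfl⟩
      by_cases h : ∃ j, e j = i
      · obtain ⟨j, rfl⟩ := h
        simp only [f]
        rw [e.injective.extend_apply]
        exact (bU j).2
      · simp only [f]
        rw [Function.extend_apply' _ _ _ h]
        exact U.zero_mem
    · have h1 : U = Submodule.map U.subtype ⊤ := by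
        rw [Submodule.map_top, Submodule.range_subtype]
      rw [h1, ← bU.span_eq, Submodule.map_span, Submodule.span_le]
      rintro _ ⟨_, ⟨j, rfl⟩, rfl⟩
      apply Submodule.subset_span
      refine ⟨e j, ?_⟩
      simp only [f]
      rw [e.injective.extend_apply]
      rfl
  calc #(Submodule F V) ≤ #(B → V) := Cardinal.mk_le_of_surjective hsurj
    _ = #V ^ #B := by simp
    _ ≤ (#F ^ #B) ^ #B := Cardinal.power_le_power_right hV
    _ = #F ^ #B := by rw [← Cardinal.power_mul, Cardinal.mul_eq_self (aleph0_le_mk B)]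

/-- Lower bound for maximal ideals. -/
theorem ideals_ge {B : Type u} [Infinite B] (b : Module.Basis B F V) :
    2 ^ (#F ^ #B) ≤ #{I : Set (Submodule F V) // Maximal IsSubspaceIdeal I} := by
  classical
  obtain ⟨S, hS1, hS2⟩ := exists_family_ideal F V B b
  -- the ideal attached to a choice function
  have hI : ∀ e : (B → F) → Bool,
      IsSubspaceIdeal {U : Submodule F V | ∃ T : Finset (B → F), U ≤ T.sup fun c => S c (e c)} := by
    intro e
    refine ⟨⟨∅, bot_le⟩, ?_, ?_, ?_⟩
    · rintro ⟨T, hT⟩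
      exact hS2 T e (top_le_iff.mp hT)
    · rintro U W ⟨T, hT⟩ hle
      exact ⟨T, hle.trans hT⟩
    · rintro U W ⟨T, hT⟩ ⟨T', hT'⟩
      refine ⟨T ∪ T', ?_⟩
      rw [Finset.sup_union]
      exact sup_le_sup hT hT'
  choose M hM1 hM2 using fun e => exists_maximal_ideal (hI e)
  have hmem : ∀ e c, S c (e c) ∈ M e := by
    intro e c
    apply hM1 e
    exact ⟨{c}, by rw [Finset.sup_singleton]⟩
  have hinj : Function.Injective
      (fun e : (B → F) → Bool => (⟨M e, hM2 e⟩ : {I // Maximal IsSubspaceIdeal I})) := by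
    intro e e' hee
    have hMM : M e = M e' := congrArg Subtype.val hee
    funext c
    by_contra hne
    have h1 := hmem e c
    have h2 := hmem e' c
    rw [hMM] at h1
    have h3 := (hM2 e').prop.sup_mem _ _ h1 h2
    apply (hM2 e').prop.top_notMem
    cases he : e c <;> cases he' : e' c
    · exact absurd (he.trans he'.symm) hne
    · rw [he, he', sup_comm, hS1] at h3
      exact h3
    · rw [he, he', hS1] at h3
      exact h3
    · exact absurd (he.trans he'.symm) hne
  have h4 := Cardinal.mk_le_of_injective hinj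
  simpa using h4

/-- Lower bound for maximal filters. -/
theorem filters_ge {B : Type u} [Infinite B] (b : Module.Basis B F V) :
    #F ^ ((2 : Cardinal.{u}) ^ #B) ≤
      #{I : Set (Submodule F V) // Maximal IsSubspaceFilter I} := by
  classical
  obtain ⟨S, hS1, hS2⟩ := exists_family_filter F V B b
  have hI : ∀ e : Set B → F,
      IsSubspaceFilter {U : Submodule F V | ∃ T : Finset (Set B), (T.inf fun c => S c (e c)) ≤ U} := by
    intro e
    refine ⟨⟨∅, le_top⟩, ?_, ?_, ?_⟩
    · rintro ⟨T, hT⟩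
      exact hS2 T e (le_bot_iff.mp hT)
    · rintro U W ⟨T, hT⟩ hle
      exact ⟨T, hT.trans hle⟩
    · rintro U W ⟨T, hT⟩ ⟨T', hT'⟩
      refine ⟨T ∪ T', ?_⟩
      rw [Finset.inf_union]
      exact inf_le_inf hT hT'
  choose M hM1 hM2 using fun e => exists_maximal_filter (hI e)
  have hmem : ∀ e c, S c (e c) ∈ M e := by
    intro e c
    apply hM1 e
    exact ⟨{c}, by rw [Finset.inf_singleton]⟩
  have hinj : Function.Injective
      (fun e : Set B → F => (⟨M e, hM2 e⟩ : {I // Maximal IsSubspaceFilter I})) := by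
    intro e e' hee
    have hMM : M e = M e' := congrArg Subtype.val hee
    funext c
    by_contra hne
    have h1 := hmem e c
    have h2 := hmem e' c
    rw [hMM] at h1
    have h3 := (hM2 e').prop.inf_mem _ _ h1 h2
    rw [hS1 c _ _ hne] at h3
    exact (hM2 e').prop.bot_notMem h3
  have h4 := Cardinal.mk_le_of_injective hinj
  simpa using h4

/-- A subspace outside a maximal filter is disjoint from some member of the filter. -/
theorem exists_disjoint {M : Set (Submodule F V)} (hM : Maximal IsSubspaceFilter M)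
    {W : Submodule F V} (hW : W ∉ M) : ∃ U ∈ M, U ⊓ W = ⊥ := by
  by_contra hcon
  push Not at hcon
  apply hW
  have hF : IsSubspaceFilter {X : Submodule F V | ∃ U ∈ M, U ⊓ W ≤ X} := by
    refine ⟨⟨⊤, hM.prop.top_mem, le_top⟩, ?_, ?_, ?_⟩
    · rintro ⟨U, hU, hle⟩
      exact hcon U hU (le_bot_iff.mp hle)
    · rintro X Y ⟨U, hU, hle⟩ hXY
      exact ⟨U, hU, hle.trans hXY⟩
    · rintro X Y ⟨U, hU, hle⟩ ⟨U', hU', hle'⟩
      refine ⟨U ⊓ U', hM.prop.inf_mem _ _ hU hU', ?_⟩
      exact le_inf ((inf_le_inf_right W inf_le_left).trans hle)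
        ((inf_le_inf_right W inf_le_right).trans hle')
  have hsub : M ⊆ {X : Submodule F V | ∃ U ∈ M, U ⊓ W ≤ X} := fun U hU => ⟨U, hU, inf_le_left⟩
  have heq := hM.eq_of_subset hF hsub
  rw [heq]
  exact ⟨⊤, hM.prop.top_mem, inf_le_right⟩

section Tree

variable {B : Type u} (b : Module.Basis B F V) (Γ : Type u) [LinearOrder Γ] [WellFoundedLT Γ]

/-- The span of finitely many basis vectors. -/
noncomputable def sp (E : Finset B) : Submodule F V := Submodule.span F (b '' (E : Set B))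

theorem exists_sp {X : Submodule F V} (hX : X ≠ ⊥) : ∃ E : Finset B, X ⊓ sp b E ≠ ⊥ := by
  classical
  obtain ⟨x, hx, hx0⟩ := Submodule.exists_mem_ne_zero_of_ne_bot hX
  refine ⟨(b.repr x).support, fun h => hx0 ?_⟩
  have h1 : x ∈ X ⊓ sp b (b.repr x).support := by
    refine ⟨hx, ?_⟩
    exact b.mem_span_repr_support x
  rw [h, Submodule.mem_bot] at h1
  exact h1

open Classical in
/-- One step of the recursion. -/
noncomputable def treeStep (M : Set (Submodule F V)) (γ : Γ)
    (IH : (β : Γ) → β < γ → (Set.Iio β → Finset B) → Submodule F V × Submodule F V)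
    (g : Set.Iio γ → Finset B) : Submodule F V × Submodule F V :=
  if h : ∃ p : Submodule F V × Submodule F V, p.1 ∈ M ∧ p.1 ⊓ p.2 = ⊥ ∧
      ∀ (β : Γ) (hβ : β < γ),
        (IH β hβ (fun δ => g ⟨δ.1, lt_trans δ.2 hβ⟩)).1 ⊓ p.2 ⊓ sp b (g ⟨β, hβ⟩) ≠ ⊥
    then h.choose else (⊤, ⊥)

/-- The tree of choices attached to a maximal filter. -/
noncomputable def tree (M : Set (Submodule F V)) : (γ : Γ) → (Set.Iio γ → Finset B) →
    Submodule F V × Submodule F V :=
  WellFounded.fix (wellFounded_lt (α := Γ)) (treeStep b Γ M)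

theorem tree_eq (M : Set (Submodule F V)) (γ : Γ) :
    tree b Γ M γ = treeStep b Γ M γ (fun β _ => tree b Γ M β) :=
  WellFounded.fix_eq _ _ γ

theorem tree_spec (M : Set (Submodule F V)) (htop : ⊤ ∈ M) (γ : Γ) (g : Set.Iio γ → Finset B) :
    (tree b Γ M γ g).1 ∈ M ∧
    ((∃ p : Submodule F V × Submodule F V, p.1 ∈ M ∧ p.1 ⊓ p.2 = ⊥ ∧
      ∀ (β : Γ) (hβ : β < γ),
        (tree b Γ M β (fun δ => g ⟨δ.1, lt_trans δ.2 hβ⟩)).1 ⊓ p.2 ⊓ sp b (g ⟨β, hβ⟩) ≠ ⊥) →
      (tree b Γ M γ g).1 ⊓ (tree b Γ M γ g).2 = ⊥ ∧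
      ∀ (β : Γ) (hβ : β < γ),
        (tree b Γ M β (fun δ => g ⟨δ.1, lt_trans δ.2 hβ⟩)).1 ⊓ (tree b Γ M γ g).2 ⊓
          sp b (g ⟨β, hβ⟩) ≠ ⊥) := by
  classical
  have hfix : tree b Γ M γ g = if h : ∃ p : Submodule F V × Submodule F V, p.1 ∈ M ∧
      p.1 ⊓ p.2 = ⊥ ∧ ∀ (β : Γ) (hβ : β < γ),
        (tree b Γ M β (fun δ => g ⟨δ.1, lt_trans δ.2 hβ⟩)).1 ⊓ p.2 ⊓ sp b (g ⟨β, hβ⟩) ≠ ⊥
    then h.choose else (⊤, ⊥) := by
    rw [tree_eq]
    rfl
  by_cases h : ∃ p : Submodule F V × Submodule F V, p.1 ∈ M ∧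
      p.1 ⊓ p.2 = ⊥ ∧ ∀ (β : Γ) (hβ : β < γ),
        (tree b Γ M β (fun δ => g ⟨δ.1, lt_trans δ.2 hβ⟩)).1 ⊓ p.2 ⊓ sp b (g ⟨β, hβ⟩) ≠ ⊥
  · rw [dif_pos h] at hfix
    have hs := h.choose_spec
    rw [← hfix] at hs
    exact ⟨hs.1, fun _ => hs.2⟩
  · rw [dif_neg h] at hfix
    refine ⟨?_, fun h' => absurd h' h⟩
    rw [hfix]
    exact htop

theorem tree_detects (M : Set (Submodule F V)) (hM : Maximal IsSubspaceFilter M)
    (hcard : #(Finset B) < #Γ) [Infinite B] {W : Submodule F V} (hW : W ∉ M) :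
    ∃ (γ : Γ) (g : Set.Iio γ → Finset B), (tree b Γ M γ g).1 ⊓ W = ⊥ := by
  classical
  by_contra hcon
  push Not at hcon
  obtain ⟨U, hU, hUW⟩ := exists_disjoint hM hW
  choose E hE using fun (γ : Γ) (g : Set.Iio γ → Finset B) => exists_sp b (hcon γ g)
  -- the branch followed by `W`
  let gs : Γ → Finset B := WellFounded.fix (wellFounded_lt (α := Γ))
    (fun γ IH => E γ (fun δ => IH δ.1 δ.2))
  have hgs : ∀ γ, gs γ = E γ (fun δ => gs δ.1) := fun γ => WellFounded.fix_eq _ _ γ
  have hP : ∀ γ, ∃ p : Submodule F V × Submodule F V, p.1 ∈ M ∧ p.1 ⊓ p.2 = ⊥ ∧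
      ∀ (β : Γ) (hβ : β < γ),
        (tree b Γ M β (fun δ => gs δ.1)).1 ⊓ p.2 ⊓ sp b (gs β) ≠ ⊥ := by
    intro γ
    refine ⟨(U, W), hU, hUW, fun β hβ => ?_⟩
    rw [hgs β]
    exact hE β (fun δ => gs δ.1)
  let A : Γ → Submodule F V := fun γ => (tree b Γ M γ (fun δ => gs δ.1)).1
  let C : Γ → Submodule F V := fun γ => (tree b Γ M γ (fun δ => gs δ.1)).2
  have hAC : ∀ γ, A γ ⊓ C γ = ⊥ := fun γ =>
    ((tree_spec b Γ M hM.prop.top_mem γ (fun δ => gs δ.1)).2 (hP γ)).1
  have hAC2 : ∀ γ β, β < γ → A β ⊓ C γ ⊓ sp b (gs β) ≠ ⊥ := fun γ β hβ =>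
    ((tree_spec b Γ M hM.prop.top_mem γ (fun δ => gs δ.1)).2 (hP γ)).2 β hβ
  -- pigeonhole
  obtain ⟨E0, hE0⟩ := Cardinal.exists_infinite_fiber' gs hcard
  let f : ℕ ↪ (gs ⁻¹' {E0}) := Infinite.natEmbedding _
  obtain ⟨k, hk⟩ := exists_increasing_or_nonincreasing_subseq
    (fun x y : Γ => x < y) (fun n => (f n : Γ))
  have hk' : ∀ m n, m < n → (f (k m) : Γ) < (f (k n) : Γ) := by
    rcases hk with hk | hk
    · exact hk
    · exfalso
      have hlt : ∀ m n, m < n → (f (k n) : Γ) < (f (k m) : Γ) := by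
        intro m n hmn
        rcases lt_trichotomy (f (k m) : Γ) (f (k n) : Γ) with h | h | h
        · exact absurd h (hk m n hmn)
        · exfalso
          have := f.injective (Subtype.ext h)
          have := k.injective this
          omega
        · exact h
      have hwf := wellFounded_lt (α := Γ)
      exact (RelEmbedding.natGT (r := (· < ·)) (fun n => (f (k n) : Γ))
        (fun n => hlt n (n + 1) (Nat.lt_succ_self n))).not_wellFounded hwf
  let idx : ℕ → Γ := fun n => (f (k n) : Γ)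
  have hidx : ∀ n, gs (idx n) = E0 := fun n => (f (k n)).2
  have : FiniteDimensional F (sp b E0) :=
    FiniteDimensional.span_of_finite F (Set.Finite.image _ E0.finite_toSet)
  obtain ⟨i, j, hij, h⟩ := skew (F := F) (V := sp b E0)
    (fun n => (A (idx n)).comap (sp b E0).subtype) (fun n => (C (idx n)).comap (sp b E0).subtype)
    (fun n => by
      rw [← Submodule.comap_inf, hAC, Submodule.comap_bot, Submodule.ker_subtype])
  have h1 := hAC2 (idx j) (idx i) (hk' i j hij)
  apply h1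
  rw [hidx]
  rw [← Submodule.comap_inf] at h
  rw [eq_bot_iff]
  intro x hx
  have h2 : (⟨x, hx.2⟩ : sp b E0) ∈ (A (idx i) ⊓ C (idx j)).comap (sp b E0).subtype := hx.1
  rw [h, Submodule.mem_bot] at h2
  exact congrArg Subtype.val h2

end Tree

/-- Upper bound for maximal filters. -/
theorem filters_le {B : Type u} [Infinite B] (b : Module.Basis B F V) :
    #{I : Set (Submodule F V) // Maximal IsSubspaceFilter I} ≤
      #F ^ ((2 : Cardinal.{u}) ^ #B) := by
  classical
  let Γ := (Order.succ #B).ord.ToType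
  have hΓ : #Γ = Order.succ #B := Cardinal.mk_ord_toType _
  have hcard : #(Finset B) < #Γ := by
    rw [hΓ, mk_finset_of_infinite]
    exact Order.lt_succ _
  let Idx := Σ γ : Γ, (Set.Iio γ → Finset B)
  have hIdx : #Idx ≤ 2 ^ #B := by
    have h1 : #Idx = Cardinal.sum (fun γ : Γ => #(Set.Iio γ → Finset B)) := Cardinal.mk_sigma _
    rw [h1]
    have h2 : ∀ γ : Γ, #(Set.Iio γ → Finset B) ≤ 2 ^ #B := by
      intro γ
      have h3 : #(Set.Iio γ) ≤ #B := by
        have : #(Set.Iio γ) < Order.succ #B := Cardinal.mk_Iio_toType_ord_lt γ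
        exact Order.lt_succ_iff.mp this
      calc #(Set.Iio γ → Finset B) = #(Finset B) ^ #(Set.Iio γ) := by simp
        _ = #B ^ #(Set.Iio γ) := by rw [mk_finset_of_infinite]
        _ ≤ #B ^ #B := Cardinal.power_le_power_left (by simp) h3
        _ = 2 ^ #B := Cardinal.power_self_eq (aleph0_le_mk B)
    calc Cardinal.sum (fun γ : Γ => #(Set.Iio γ → Finset B))
        ≤ Cardinal.sum (fun _ : Γ => (2 : Cardinal.{u}) ^ #B) := Cardinal.sum_le_sum _ _ h2
      _ = #Γ * 2 ^ #B := by rw [Cardinal.sum_const']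
      _ ≤ 2 ^ #B * 2 ^ #B := by
          apply mul_le_mul_left
          rw [hΓ]
          exact Order.succ_le_of_lt (Cardinal.cantor _)
      _ = 2 ^ #B := Cardinal.mul_eq_self
          ((aleph0_le_mk B).trans (Cardinal.cantor _).le)
  have hinj : Function.Injective
      (fun (M : {I : Set (Submodule F V) // Maximal IsSubspaceFilter I}) (i : Idx) =>
        (tree b Γ M.1 i.1 i.2).1) := by
    have hdet : ∀ M : {I : Set (Submodule F V) // Maximal IsSubspaceFilter I},
        M.1 = {W | ∀ i : Idx, (tree b Γ M.1 i.1 i.2).1 ⊓ W ≠ ⊥} := by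
      intro M
      ext W
      constructor
      · intro hW i hbot
        have h1 := (tree_spec b Γ M.1 M.2.prop.top_mem i.1 i.2).1
        have h2 := M.2.prop.inf_mem _ _ h1 hW
        rw [hbot] at h2
        exact M.2.prop.bot_notMem h2
      · intro hW
        by_contra hn
        obtain ⟨γ, g, h⟩ := tree_detects b Γ M.1 M.2 hcard hn
        exact hW ⟨γ, g⟩ h
    intro M M' h
    apply Subtype.ext
    rw [hdet M, hdet M']
    ext W
    constructor
    · intro hW i
      have := congrFun h i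
      simp only at this
      rw [← this]
      exact hW i
    · intro hW i
      have := congrFun h i
      simp only at this
      rw [this]
      exact hW i
  have hF2 : (1 : Cardinal.{u}) ≤ #F := by
    rw [Cardinal.one_le_iff_ne_zero]
    exact Cardinal.mk_ne_zero F
  calc #{I : Set (Submodule F V) // Maximal IsSubspaceFilter I}
      ≤ #(Idx → Submodule F V) := Cardinal.mk_le_of_injective hinj
    _ = #(Submodule F V) ^ #Idx := by simp
    _ ≤ (#F ^ #B) ^ #Idx := Cardinal.power_le_power_right (mk_submodule_le b)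
    _ = #F ^ (#B * #Idx) := by rw [← Cardinal.power_mul]
    _ ≤ #F ^ ((2 : Cardinal.{u}) ^ #B) := by
        apply Cardinal.power_le_power_left (Cardinal.mk_ne_zero F)
        calc #B * #Idx ≤ 2 ^ #B * 2 ^ #B := mul_le_mul' (Cardinal.cantor _).le hIdx
          _ = 2 ^ #B := Cardinal.mul_eq_self ((aleph0_le_mk B).trans (Cardinal.cantor _).le)

/-- The number of maximal ideals is `2 ^ (|F| ^ κ)` and the number of maximal filters is
`|F| ^ (2 ^ κ)`. -/
theorem result (F V : Type u) [Field F] [AddCommGroup V] [Module F V]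
    (hV : ℵ₀ ≤ Module.rank F V) :
    #{I : Set (Submodule F V) // Maximal IsSubspaceIdeal I} = 2 ^ (#F ^ Module.rank F V) ∧
    #{I : Set (Submodule F V) // Maximal IsSubspaceFilter I} =
      #F ^ ((2 : Cardinal.{u}) ^ Module.rank F V) := by
  classical
  let b := Module.Basis.ofVectorSpace F V
  have hB : #(Module.Basis.ofVectorSpaceIndex F V) = Module.rank F V := b.mk_eq_rank''
  rw [← hB] at hV ⊢
  have : Infinite (Module.Basis.ofVectorSpaceIndex F V) := Cardinal.infinite_iff.mpr hV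
  refine ⟨le_antisymm ?_ (ideals_ge b), le_antisymm (filters_le b) (filters_ge b)⟩
  calc #{I : Set (Submodule F V) // Maximal IsSubspaceIdeal I}
      ≤ #(Set (Submodule F V)) := Cardinal.mk_le_of_injective Subtype.val_injective
    _ = 2 ^ #(Submodule F V) := Cardinal.mk_set
    _ ≤ 2 ^ (#F ^ #(Module.Basis.ofVectorSpaceIndex F V)) :=
        Cardinal.power_le_power_left two_ne_zero (mk_submodule_le b)

end Pool.Agent.Results.MP_f0da7f_al.CountMaximal
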